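import Mathlib
import Pool.Agent.H554R2.Rnd.Defs
import Pool.Agent.H554R2.Rnd.Classes
import Pool.Agent.H554R2.Rnd.Disc
import Pool.Agent.H554R2.Rnd.Fool

/-!
# S1, S2: characters on large classes; the points where some forms vanish
-/

set_option autoImplicit false

open Finset

namespace Pool.Agent.H554R2.Rnd

open Pool.Agent.H554R2.Sem Pool.Agent.H554R2.Coin Pool.Agent.H554R2.Lin

/-- S1: characters on large classes -/
theorem class_chi {n r s G D Q : ℕ} (hQ : 1 ≤ Q) (B : Blk n r s) (hB : AllRead B)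
    (T : Fin r → Fin 3) (x : Pt n) (hx : x ∈ B.K) (hL : Lg Q B T x)
    (π : Fin D → Fin n → Fin G) (h : Fin D → Fin n → Fin n → Bool) (u : Finset (Fin D))
    (hker : (ker (coef π h u) (hat (B.S x) T 0) (hat (B.S x) T 1)).card *
        2 ^ (min (hat (B.S x) T 0).card (hat (B.S x) T 1).card / 2048) ≤
      2 ^ (hat (B.S x) T 1).card) :
    ((|∑ y ∈ cls B T x, chi π h u y| : ℤ) : ℝ) * 2 ^ (n / (16384 * Q)) ≤ (cls B T x).card := by
  obtain ⟨hn0, hn1, hX, hY⟩ := hL
  have hdis := (sum_cls B hB T x hx (fun _ => 1)).1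
  have hsum := fun f : Pt n → ℤ => (sum_cls B hB T x hx f).2
  have hcard : (cls B T x).card = (fb B T 0 x).card * (fb B T 1 x).card := by
    have := hsum (fun _ => 1)
    simp only [sum_const, nsmul_eq_mul, mul_one] at this
    exact_mod_cast this
  have hfb : ∀ e, ∀ y ∈ fb B T e x, ∀ v, v ∉ hat (B.S x) T e → y v = x v := by
    intro e y hy
    exact ((R6_mem_fb B T e x y).1 hy).2.2.2
  have hg : n / (16384 * Q) ≤ 3 * gg B T x := by
    have h1 : n / Q ≤ min (hat (B.S x) T 0).card (hat (B.S x) T 1).card := by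
      refine le_min ?_ ?_
      · exact Nat.div_le_of_le_mul hn0
      · exact Nat.div_le_of_le_mul hn1
    have h2 : n / (16384 * Q) ≤ gg B T x := by
      rw [mul_comm, ← Nat.div_div_eq_div_mul]
      exact Nat.div_le_div_right h1
    omega
  have h1 := disc π h u (hat (B.S x) T 0) (hat (B.S x) T 1) hdis x (fb B T 0 x) (fb B T 1 x)
    (hfb 0) (hfb 1)
  rw [← hsum (fun y => chi π h u y)] at h1
  have h2 := R19_arith _ _ _ _ _ _ _ _ (gg B T x) hcard (by unfold gg; omega) h1 hker hX hY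
  have h3 : ((|∑ y ∈ cls B T x, chi π h u y| : ℤ) : ℝ) * 2 ^ (3 * gg B T x) ≤
      ((cls B T x).card : ℝ) := by exact_mod_cast h2
  refine le_trans ?_ h3
  exact mul_le_mul_of_nonneg_left (pow_le_pow_right₀ (by norm_num) hg)
    (by exact_mod_cast abs_nonneg _)

/-- The indicator of the common zeros is a sum of characters. -/
theorem S2_ind {n G D : ℕ} (π : Fin D → Fin n → Fin G) (h : Fin D → Fin n → Fin n → Bool)
    (g : Finset (Fin D)) (x : Pt n) :
    ∑ s ∈ g.powerset, chi π h s x =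
      if ∀ i ∈ g, qr (π i) (h i) x = false then (2 : ℤ) ^ g.card else 0 := by
  have h1 : ∑ s ∈ g.powerset, chi π h s x = ∏ i ∈ g, (sgn (qr (π i) (h i) x) + 1) := by
    rw [Finset.prod_add_one]
    rfl
  rw [h1]
  split_ifs with h2
  · rw [Finset.prod_congr rfl (g := fun _ => (2 : ℤ))]
    · rw [Finset.prod_const]
    · intro i hi
      rw [h2 i hi]
      rfl
  · push Not at h2
    obtain ⟨i, hi, h3⟩ := h2
    refine Finset.prod_eq_zero hi ?_
    rw [Bool.eq_true_of_not_eq_false h3]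
    rfl

/-- S2: the points where the forms with indices in `g` vanish -/
theorem zero_count {n G D : ℕ} (π : Fin D → Fin n → Fin G) (h : Fin D → Fin n → Fin n → Bool)
    (R : Finset (Pt n)) (g : Finset (Fin D)) (c : ℝ) (hc0 : 0 ≤ c)
    (hc : ∀ s ⊆ g, s.Nonempty → ((|∑ x ∈ R, chi π h s x| : ℤ) : ℝ) ≤ c) :
    ((R.filter (fun x => ∀ i ∈ g, qr (π i) (h i) x = false)).card : ℝ) ≤
      R.card / 2 ^ g.card + c := by
  have h1 : (((R.filter (fun x => ∀ i ∈ g, qr (π i) (h i) x = false)).card : ℤ)) * 2 ^ g.card =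
      ∑ s ∈ g.powerset, ∑ x ∈ R, chi π h s x := by
    rw [Finset.sum_comm]
    simp only [S2_ind]
    rw [← Finset.sum_filter, Finset.sum_const, nsmul_eq_mul]
  have h2 : ((R.filter (fun x => ∀ i ∈ g, qr (π i) (h i) x = false)).card : ℝ) * 2 ^ g.card =
      ∑ s ∈ g.powerset, ((∑ x ∈ R, chi π h s x : ℤ) : ℝ) := by
    exact_mod_cast h1
  have h3 : ∑ s ∈ g.powerset, ((∑ x ∈ R, chi π h s x : ℤ) : ℝ) ≤ R.card + 2 ^ g.card * c := by
    have h4 : ∀ s ∈ g.powerset, ((∑ x ∈ R, chi π h s x : ℤ) : ℝ) ≤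
        (if s = ∅ then (R.card : ℝ) else 0) + c := by
      intro s hs
      split_ifs with h5
      · subst h5
        have : (∑ x ∈ R, chi π h ∅ x : ℤ) = R.card := by
          simp [chi]
        rw [this]
        push_cast
        linarith
      · rw [zero_add]
        refine le_trans ?_ (hc s (Finset.mem_powerset.1 hs) (Finset.nonempty_iff_ne_empty.2 h5))
        exact_mod_cast le_abs_self _
    refine (Finset.sum_le_sum h4).trans ?_
    rw [Finset.sum_add_distrib, Finset.sum_const, Finset.card_powerset,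
      Finset.sum_ite_eq' g.powerset ∅, if_pos (Finset.empty_mem_powerset g), nsmul_eq_mul]
    push_cast
    exact le_rfl
  have h6 : (0 : ℝ) < 2 ^ g.card := by positivity
  rw [← h2] at h3
  calc ((R.filter (fun x => ∀ i ∈ g, qr (π i) (h i) x = false)).card : ℝ)
      = ((R.filter (fun x => ∀ i ∈ g, qr (π i) (h i) x = false)).card : ℝ) * 2 ^ g.card /
        2 ^ g.card := by field_simp
    _ ≤ (R.card + 2 ^ g.card * c) / 2 ^ g.card := by gcongr
    _ = R.card / 2 ^ g.card + c := by field_simp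

end Pool.Agent.H554R2.Rnd
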