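import Mathlib
import Pool.Agent.H554R2.Rnd.FoolBlk
import Pool.Agent.H554R2.Rnd.Zero

/-!
# S3, S4: a large class which contains no zero meets few of the sets `Zs`
-/

set_option autoImplicit false

open Finset

namespace Pool.Agent.H554R2.Rnd

open Pool.Agent.H554R2.Sem Pool.Agent.H554R2.Coin Pool.Agent.H554R2.Lin

theorem S3_mem_Zs {n G D : ℕ} (π : Fin D → Fin n → Fin G) (h : Fin D → Fin n → Fin n → Bool)
    (j : Option (Fin D)) (x : Pt n) :
    x ∈ Zs π h j ↔ ∀ i, qr (π i) (h i) x = decide (j = some i) := by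
  unfold Zs
  rw [Finset.mem_filter]
  exact ⟨fun h => h.2, fun h => ⟨Finset.mem_univ _, h⟩⟩

/-- the sets `Zs` with indices outside `g` are disjoint and contained in the zeros of the forms
with indices in `g` -/
theorem S3_sum_le {n G D : ℕ} (π : Fin D → Fin n → Fin G) (h : Fin D → Fin n → Fin n → Bool)
    (R : Finset (Pt n)) (g b : Finset (Fin D)) (hgb : Disjoint g b) :
    ∑ j ∈ b, (R ∩ Zs π h (some j)).card ≤
      (R.filter (fun x => ∀ i ∈ g, qr (π i) (h i) x = false)).card := by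
  classical
  rw [← Finset.card_biUnion]
  · apply Finset.card_le_card
    intro x hx
    rw [Finset.mem_biUnion] at hx
    obtain ⟨j, hj, hx⟩ := hx
    rw [Finset.mem_inter, S3_mem_Zs] at hx
    rw [Finset.mem_filter]
    refine ⟨hx.1, ?_⟩
    intro i hi
    rw [hx.2 i]
    apply decide_eq_false
    intro he
    have : j = i := Option.some.inj he
    subst this
    exact Finset.disjoint_left.1 hgb hi hj
  · intro i hi j hj hij
    rw [Function.onFun, Finset.disjoint_left]
    intro x hx hx'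
    rw [Finset.mem_inter, S3_mem_Zs] at hx hx'
    have h1 := hx.2 i
    have h2 := hx'.2 i
    rw [h1] at h2
    have h3 : decide (some i = some i) = true := decide_eq_true rfl
    have h4 : decide (some j = some i) = false := decide_eq_false (fun he =>
      hij (Option.some.inj he).symm)
    rw [h3, h4] at h2
    exact Bool.noConfusion h2

/-- S3: a large class which contains no zero meets few of the sets `Zs` -/
theorem cover_class {n r s G D Q L : ℕ} (hQ : 1 ≤ Q) (B : Blk n r s) (hB : AllRead B)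
    (T : Fin r → Fin 3) (x : Pt n) (hx : x ∈ B.K) (hL : Lg Q B T x)
    (π : Fin D → Fin n → Fin G) (h : Fin D → Fin n → Fin n → Bool)
    (hker : ∀ A B' : Finset (Fin n), Disjoint A B' → n ≤ Q * A.card → n ≤ Q * B'.card →
      ∀ s : Finset (Fin D), ∀ j ∈ s, Bal (π j) A B' →
        (ker (coef π h s) A B').card * 2 ^ (min A.card B'.card / 2048) ≤ 2 ^ B'.card)
    (hbal : ∀ A B' : Finset (Fin n), n ≤ Q * A.card → n ≤ Q * B'.card →
      Nat.card {j // ¬ Bal (π j) A B'} ≤ L)
    (h0 : cls B T x ∩ Zs π h none = ∅) :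
    ∑ j, ((cls B T x ∩ Zs π h (some j)).card : ℝ) ≤
      (cls B T x).card * (2 ^ L / 2 ^ D + (D + 1) / 2 ^ (n / (16384 * Q))) := by
  classical
  set e := n / (16384 * Q) with he
  have h2e : (0 : ℝ) < 2 ^ e := by positivity
  set R := cls B T x with hR
  have hdis := R7_disj B hB T x hx
  set g : Finset (Fin D) :=
    univ.filter (fun j => Bal (π j) (hat (B.S x) T 0) (hat (B.S x) T 1)) with hg
  set b : Finset (Fin D) :=
    univ.filter (fun j => ¬ Bal (π j) (hat (B.S x) T 0) (hat (B.S x) T 1)) with hb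
  have hbL : b.card ≤ L := by
    have h1 := hbal _ _ hL.1 hL.2.1
    rw [Nat.card_eq_fintype_card, Fintype.card_subtype] at h1
    exact h1
  have hsum : g.card + b.card = D := by
    rw [hg, hb, Finset.card_filter_add_card_filter_not, Finset.card_univ, Fintype.card_fin]
  have hgb : Disjoint g b := Finset.disjoint_filter_filter_not _ _ _
  have hR0 : (0 : ℝ) ≤ R.card := Nat.cast_nonneg _
  -- the balanced indices
  have hone : ∀ j ∈ g, ((R ∩ Zs π h (some j)).card : ℝ) ≤ (R.card : ℝ) / 2 ^ e := by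
    intro j hj
    have h1 := fool_class hQ B hB T x hx hL π h j
      (fun s hs => hker _ _ hdis hL.1 hL.2.1 s j hs (Finset.mem_filter.1 hj).2)
    rw [← hR, h0, Finset.card_empty, Nat.cast_zero, zero_sub, abs_neg, Nat.abs_cast,
      ← le_div_iff₀ h2e] at h1
    exact h1
  have hsg : ∑ j ∈ g, ((R ∩ Zs π h (some j)).card : ℝ) ≤ D * ((R.card : ℝ) / 2 ^ e) := by
    calc ∑ j ∈ g, ((R ∩ Zs π h (some j)).card : ℝ) ≤ ∑ _j ∈ g, (R.card : ℝ) / 2 ^ e :=
          Finset.sum_le_sum hone
      _ = g.card * ((R.card : ℝ) / 2 ^ e) := by rw [Finset.sum_const, nsmul_eq_mul]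
      _ ≤ D * ((R.card : ℝ) / 2 ^ e) := by
          apply mul_le_mul_of_nonneg_right _ (by positivity)
          exact_mod_cast (by omega : g.card ≤ D)
  -- the other indices
  have hz := zero_count π h R g ((R.card : ℝ) / 2 ^ e) (by positivity) (by
    intro s hs hne
    obtain ⟨j, hj⟩ := hne
    have h1 := class_chi hQ B hB T x hx hL π h s
      (hker _ _ hdis hL.1 hL.2.1 s j hj (Finset.mem_filter.1 (hs hj)).2)
    rw [← le_div_iff₀ h2e] at h1
    exact h1)
  have hsb : ∑ j ∈ b, ((R ∩ Zs π h (some j)).card : ℝ) ≤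
      R.card * (2 ^ L / 2 ^ D) + (R.card : ℝ) / 2 ^ e := by
    have h1 := S3_sum_le π h R g b hgb
    have h2 : ∑ j ∈ b, ((R ∩ Zs π h (some j)).card : ℝ) ≤
        ((R.filter (fun x => ∀ i ∈ g, qr (π i) (h i) x = false)).card : ℝ) := by
      exact_mod_cast h1
    refine h2.trans (hz.trans ?_)
    have h3 : (R.card : ℝ) / 2 ^ g.card ≤ R.card * (2 ^ L / 2 ^ D) := by
      rw [← mul_div_assoc, div_le_div_iff₀ (by positivity) (by positivity), mul_assoc, ← pow_add]
      apply mul_le_mul_of_nonneg_left _ hR0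
      exact pow_le_pow_right₀ (by norm_num) (by omega)
    linarith
  have htot : ∑ j, ((R ∩ Zs π h (some j)).card : ℝ) =
      ∑ j ∈ g, ((R ∩ Zs π h (some j)).card : ℝ) + ∑ j ∈ b, ((R ∩ Zs π h (some j)).card : ℝ) := by
    rw [hg, hb, Finset.sum_filter_add_sum_filter_not]
  rw [htot]
  calc _ ≤ D * ((R.card : ℝ) / 2 ^ e) + (R.card * (2 ^ L / 2 ^ D) + (R.card : ℝ) / 2 ^ e) :=
        add_le_add hsg hsb
    _ = _ := by ring

open Classical in
/-- S4: sum over the large classes -/
theorem cover_blk {n r s G D Q L : ℕ} (hQ : 1 ≤ Q) (B : Blk n r s) (hB : AllRead B)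
    (T : Fin r → Fin 3) (π : Fin D → Fin n → Fin G) (h : Fin D → Fin n → Fin n → Bool)
    (hker : ∀ A B' : Finset (Fin n), Disjoint A B' → n ≤ Q * A.card → n ≤ Q * B'.card →
      ∀ s : Finset (Fin D), ∀ j ∈ s, Bal (π j) A B' →
        (ker (coef π h s) A B').card * 2 ^ (min A.card B'.card / 2048) ≤ 2 ^ B'.card)
    (hbal : ∀ A B' : Finset (Fin n), n ≤ Q * A.card → n ≤ Q * B'.card →
      Nat.card {j // ¬ Bal (π j) A B'} ≤ L)
    (h0 : B.K ∩ Zs π h none = ∅) :
    ∑ j, (((B.K.filter (fun x => Lg Q B T x)) ∩ Zs π h (some j)).card : ℝ) ≤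
      (B.K.filter (fun x => Lg Q B T x)).card *
        (2 ^ L / 2 ^ D + (D + 1) / 2 ^ (n / (16384 * Q))) := by
  set CL : Finset (Finset (Pt n)) :=
    (B.K.filter (fun x => Lg Q B T x)).image (fun x => cls B T x) with hCL
  set β : ℝ := 2 ^ L / 2 ^ D + (D + 1) / 2 ^ (n / (16384 * Q)) with hβ
  have h1 : ∑ j, (((B.K.filter (fun x => Lg Q B T x)) ∩ Zs π h (some j)).card : ℝ) =
      ∑ R ∈ CL, ∑ j, ((R ∩ Zs π h (some j)).card : ℝ) := by
    rw [Finset.sum_comm]
    refine Finset.sum_congr rfl fun j _ => ?_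
    rw [R20_part B hB T, Nat.cast_sum]
  have h2 : ((B.K.filter (fun x => Lg Q B T x)).card : ℝ) = ∑ R ∈ CL, (R.card : ℝ) := by
    have h4 := R20_part (Q := Q) B hB T univ
    simp only [Finset.inter_univ] at h4
    rw [h4, Nat.cast_sum]
  rw [h1, h2, Finset.sum_mul]
  apply Finset.sum_le_sum
  intro R hR
  obtain ⟨x, hx, rfl⟩ := Finset.mem_image.1 hR
  obtain ⟨hxK, hxL⟩ := Finset.mem_filter.1 hx
  apply cover_class hQ B hB T x hxK hxL π h hker hbal
  apply Finset.eq_empty_of_forall_notMem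
  intro y hy
  rw [Finset.mem_inter] at hy
  have hyK : y ∈ B.K := ((R6_mem_cls B T x y).1 hy.1).1
  have : y ∈ B.K ∩ Zs π h none := Finset.mem_inter.2 ⟨hyK, hy.2⟩
  rw [h0] at this
  exact Finset.notMem_empty _ this

end Pool.Agent.H554R2.Rnd
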