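import Pool.Agent.H554R2.Rnd.Det
import Pool.Agent.H554R2.Rnd.CoverBlk
import Pool.Agent.H554R2.Lin.CnfFinal

/-!
# S5: deterministic programs which accept no zero
-/

set_option autoImplicit false

open Finset

namespace Pool.Agent.H554R2.Rnd

open Pool.Agent.H554R2.Sem Pool.Agent.H554R2.Coin Pool.Agent.H554R2.Lin

theorem S5_disj {n G D : ℕ} (π : Fin D → Fin n → Fin G) (h : Fin D → Fin n → Fin n → Bool)
    (R : Finset (Pt n)) :
    ((univ : Finset (Fin D)).biUnion (fun j => R ∩ Zs π h (some j))).card =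
      ∑ j, (R ∩ Zs π h (some j)).card := by
  apply Finset.card_biUnion
  intro i _ j _ hij
  rw [Function.onFun, Finset.disjoint_left]
  intro x hx hx'
  have h1 := (Finset.mem_filter.1 (Finset.mem_inter.1 hx).2).2 i
  have h2 := (Finset.mem_filter.1 (Finset.mem_inter.1 hx').2).2 i
  rw [h1] at h2
  have h3 : (some i = some i) ↔ (some j = some i) := by
    simpa using h2
  exact hij (Option.some.inj (h3.1 rfl)).symm

open Classical in
/-- one class of computations -/
theorem S5_class {n r s G D Q N0 : ℕ} (M : ℕ) (B : Blk n r s) (T : Fin r → Fin 3)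
    (π : Fin D → Fin n → Fin G) (h : Fin D → Fin n → Fin n → Bool) (b : ℝ) (hb : 0 ≤ b)
    (hcov : ((univ : Finset (Fin D)).biUnion (fun j => B.K ∩ Zs π h (some j))).card *
        2 ^ (n / N0) ≤
      M * Nat.card {x // x ∈ ((univ : Finset (Fin D)).biUnion (fun j => B.K ∩ Zs π h (some j))) ∧
        Lg Q B T x} * 2 ^ (n / N0) + 2 ^ n)
    (hfool : ∑ j, (((B.K.filter (fun x => Lg Q B T x)) ∩ Zs π h (some j)).card : ℝ) ≤
      (B.K.filter (fun x => Lg Q B T x)).card * b) :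
    ∑ j, ((B.K ∩ Zs π h (some j)).card : ℝ) ≤
      M * (B.K.card * b) + 2 ^ n * (1 / 2 ^ (n / N0)) := by
  have hcard : Nat.card {x // x ∈ ((univ : Finset (Fin D)).biUnion
      (fun j => B.K ∩ Zs π h (some j))) ∧ Lg Q B T x} =
      ((univ : Finset (Fin D)).biUnion
        (fun j => (B.K.filter (fun x => Lg Q B T x)) ∩ Zs π h (some j))).card := by
    rw [Nat.card_eq_fintype_card, Fintype.card_subtype]
    congr 1
    ext x
    simp only [mem_filter, mem_inter, mem_univ, true_and, mem_biUnion]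
    constructor
    · rintro ⟨⟨j, h1, h2⟩, h3⟩
      exact ⟨j, ⟨h1, h3⟩, h2⟩
    · rintro ⟨j, ⟨h1, h3⟩, h2⟩
      exact ⟨⟨j, h1, h2⟩, h3⟩
  rw [hcard, S5_disj, S5_disj] at hcov
  have hcov' : (∑ j, ((B.K ∩ Zs π h (some j)).card : ℝ)) * 2 ^ (n / N0) ≤
      M * (∑ j, (((B.K.filter (fun x => Lg Q B T x)) ∩ Zs π h (some j)).card : ℝ)) *
        2 ^ (n / N0) + 2 ^ n := by
    exact_mod_cast hcov
  have hpos : (0 : ℝ) < 2 ^ (n / N0) := by positivity
  have hcov2 : (∑ j, ((B.K ∩ Zs π h (some j)).card : ℝ)) ≤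
      M * (∑ j, (((B.K.filter (fun x => Lg Q B T x)) ∩ Zs π h (some j)).card : ℝ)) +
        2 ^ n / 2 ^ (n / N0) := by
    have : (M * (∑ j, (((B.K.filter (fun x => Lg Q B T x)) ∩ Zs π h (some j)).card : ℝ)) *
        2 ^ (n / N0) + 2 ^ n) =
      (M * (∑ j, (((B.K.filter (fun x => Lg Q B T x)) ∩ Zs π h (some j)).card : ℝ)) +
        2 ^ n / 2 ^ (n / N0)) * (2 : ℝ) ^ (n / N0) := by
      field_simp
    rw [this] at hcov'
    exact le_of_mul_le_mul_right hcov' hpos
  have hM : (0 : ℝ) ≤ M := Nat.cast_nonneg M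
  have hK : ((B.K.filter (fun x => Lg Q B T x)).card : ℝ) * b ≤ B.K.card * b := by
    refine mul_le_mul_of_nonneg_right ?_ hb
    exact_mod_cast Finset.card_le_card (Finset.filter_subset _ _)
  have h1 := mul_le_mul_of_nonneg_left (hfool.trans hK) hM
  have h2 : (2 : ℝ) ^ n / 2 ^ (n / N0) = 2 ^ n * (1 / 2 ^ (n / N0)) := by ring
  linarith

open Classical in
/-- S5 from the cover, the estimate for one class, and the blocks -/
theorem det_cover_of (k : ℕ)
    (cover_blk : ∀ {n r s G D Q L : ℕ} (_ : 1 ≤ Q) (B : Blk n r s) (_ : AllRead B)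
      (T : Fin r → Fin 3) (π : Fin D → Fin n → Fin G) (h : Fin D → Fin n → Fin n → Bool)
      (_ : ∀ A B' : Finset (Fin n), Disjoint A B' → n ≤ Q * A.card → n ≤ Q * B'.card →
        ∀ s : Finset (Fin D), ∀ j ∈ s, Bal (π j) A B' →
          (ker (coef π h s) A B').card * 2 ^ (min A.card B'.card / 2048) ≤ 2 ^ B'.card)
      (_ : ∀ A B' : Finset (Fin n), n ≤ Q * A.card → n ≤ Q * B'.card →
        Nat.card {j // ¬ Bal (π j) A B'} ≤ L)
      (_ : B.K ∩ Zs π h none = ∅),
      ∑ j, (((B.K.filter (fun x => Lg Q B T x)) ∩ Zs π h (some j)).card : ℝ) ≤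
        (B.K.filter (fun x => Lg Q B T x)).card *
          (2 ^ L / 2 ^ D + (D + 1) / 2 ^ (n / (16384 * Q)))) :
    ∃ Q r N : ℕ, 1 ≤ Q ∧ 1 ≤ r ∧ 1 ≤ N ∧ ∀ n ≥ N,
    ∀ {G D L : ℕ}, ∀ (π : Fin D → Fin n → Fin G) (h : Fin D → Fin n → Fin n → Bool),
    (∀ A B' : Finset (Fin n), Disjoint A B' → n ≤ Q * A.card → n ≤ Q * B'.card →
      ∀ s : Finset (Fin D), ∀ j ∈ s, Bal (π j) A B' →
        (ker (coef π h s) A B').card * 2 ^ (min A.card B'.card / 2048) ≤ 2 ^ B'.card) →
    (∀ A B' : Finset (Fin n), n ≤ Q * A.card → n ≤ Q * B'.card →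
      Nat.card {j // ¬ Bal (π j) A B'} ≤ L) →
    ∀ P : BP (Fin n) Bool,
      (∀ x, ∃ (l : List (Fin n)) (b : Bool), l.length ≤ k * n ∧ P.Comp x l b ∧ ∀ v, v ∈ l) →
      (∀ x ∈ Zs π h none, ¬ ∃ l, P.Comp x l true) →
      ∑ j, ((univ.filter (fun x => (∃ l, P.Comp x l true) ∧ x ∈ Zs π h (some j))).card : ℝ) ≤
        8 * ((k : ℝ) + 1) ^ 2 * 2 ^ n * 2 ^ L / 2 ^ D +
        (Fintype.card P.State : ℝ) ^ (r + 1) * ((D + 1) * 2 ^ n / 2 ^ (n / N)) := by
  obtain ⟨Q, r, N0, hQ, hr, hN0, hcov⟩ := main_cover (k + 1) (by omega)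
  obtain ⟨N, hN, -, hrN, hexp⟩ := R22_exp (8 * (k + 1) ^ 2) (16384 * Q) N0 (by omega) (by omega)
    (r + N0)
  refine ⟨Q, r, N, hQ, hr, hN, ?_⟩
  intro n hn G D L π h hker hbal P0 hP0 hzero
  -- the negated program
  obtain ⟨P, hPdef⟩ : ∃ P : BP (Fin n) Bool, P = BP.neg P0 := ⟨_, rfl⟩
  have hcardP : (Fintype.card P0.State : ℝ) = Fintype.card P.State := by
    subst hPdef
    congr 1
  have hcomp : ∀ x l, P0.Comp x l true ↔ P.Comp x l false := by
    intro x l
    rw [hPdef]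
    exact (neg_comp P0 x l true).symm
  have hP : ∀ x, ∃ (l : List (Fin n)) (b : Bool), l.length ≤ k * n ∧ P.Comp x l b ∧ ∀ v, v ∈ l := by
    intro x
    obtain ⟨l, b, h1, h2, h3⟩ := hP0 x
    refine ⟨l, !b, h1, ?_, h3⟩
    rw [hPdef]
    exact (neg_comp P0 x l b).2 h2
  have hzero' : ∀ x ∈ Zs π h none, ¬ ∃ l, P.Comp x l false := by
    rintro x hx ⟨l, hl⟩
    exact hzero x hx ⟨l, (hcomp x l).2 hl⟩
  rw [hcardP]
  have hset0 : ∀ j, (univ.filter (fun x => (∃ l, P0.Comp x l true) ∧ x ∈ Zs π h (some j))) =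
      univ.filter (fun x => (∃ l, P.Comp x l false) ∧ x ∈ Zs π h (some j)) := by
    intro j
    ext x
    simp only [mem_filter, mem_univ, true_and, hcomp]
  simp only [hset0]
  clear hset0 hcomp hzero hP0 hcardP hPdef
  obtain ⟨s, hs⟩ : ∃ s, s = k * n / r + 1 := ⟨_, rfl⟩
  have hs1 : k * n ≤ r * s := by
    rw [hs, Nat.mul_add, mul_one]
    have := Nat.div_add_mod (k * n) r
    have h2 := Nat.mod_lt (k * n) hr
    omega
  have hs2 : r * s ≤ (k + 1) * n := by
    rw [hs, Nat.mul_add, mul_one]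
    have := Nat.mul_div_le (k * n) r
    have h3 : (k + 1) * n = k * n + n := by ring
    omega
  have hn0 : N0 ≤ n := by omega
  have hP' : ∀ x, ∃ (l : List (Fin n)) (b : Bool), l.length ≤ r * s ∧ P.Comp x l b ∧ ∀ v, v ∈ l := by
    intro x
    obtain ⟨l, b, h1, h2, h3⟩ := hP x
    exact ⟨l, b, h1.trans hs1, h2, h3⟩
  obtain ⟨c, hc⟩ : ∃ c : Pt n → (Fin (r + 1) → P.State),
    c = fun x (j : Fin (r + 1)) => V1_it P x P.start (j * s) := ⟨_, rfl⟩
  have hfalse : ∀ x : Pt n, (∃ l, P.Comp x l false) → P.node (c x (Fin.last r)) = Sum.inr false := by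
    rintro x ⟨l', hl'⟩
    obtain ⟨l, b, h1, h2, -⟩ := hP' x
    have h3 := V1_comp P x h2 (t := max (r * s) l'.length) (h1.trans (le_max_left _ _))
    have h4 := V1_comp P x hl' (t := max (r * s) l'.length) (le_max_right _ _)
    rw [h3] at h4
    have h5 : b = false := by simpa using h4
    subst h5
    rw [hc]
    exact V1_comp P x h2 (by simpa using h1)
  obtain ⟨M, hM⟩ : ∃ M : ℕ, M = 8 * (k + 1) ^ 2 := ⟨_, rfl⟩
  obtain ⟨F, hF⟩ : ∃ F : Option (Fin D) → Finset (Pt n), F = fun j =>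
    univ.filter (fun x => (∃ l, P.Comp x l false) ∧ x ∈ Zs π h j) := ⟨_, rfl⟩
  have hMR : 8 * ((k : ℝ) + 1) ^ 2 = (M : ℝ) := by rw [hM]; push_cast; ring
  obtain ⟨β, hβ⟩ : ∃ β : ℝ, β = 2 ^ L / 2 ^ D + (D + 1) / 2 ^ (n / (16384 * Q)) := ⟨_, rfl⟩
  have hβ0 : 0 ≤ β := by rw [hβ]; positivity
  have key : ∀ κ : Fin (r + 1) → P.State,
      ∑ j, (((F (some j)).filter (fun x => c x = κ)).card : ℝ) ≤
        M * (((univ : Finset (Pt n)).filter (fun x => c x = κ)).card * β) +
          2 ^ n * (1 / 2 ^ (n / N0)) := by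
    intro κ
    by_cases hκ : κ 0 = P.start ∧ P.node (κ (Fin.last r)) = Sum.inr false
    · obtain ⟨B, hB, hBK⟩ := blocks_all P r s hP' κ hκ.1 hκ.2
      have hKc : ∀ x, x ∈ B.K ↔ c x = κ := by
        intro x
        rw [hBK, hc]
        constructor
        · intro h1
          funext i
          exact h1 i
        · intro h1 i
          rw [← h1]
      have hacc : ∀ x, x ∈ B.K → ∃ l, P.Comp x l false := by
        intro x hx
        have h1 := (hBK x).1 hx
        obtain ⟨l, w, h4, h5⟩ := V1_comp_of P x false _ P.start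
            (by rw [h1 (Fin.last r)]; exact hκ.2)
        exact ⟨l, w, h4, h5⟩
      have hset : ∀ j, (F j).filter (fun x => c x = κ) = B.K ∩ Zs π h j := by
        intro j
        ext x
        simp only [hF, mem_filter, mem_inter, mem_univ, true_and, hKc]
        constructor
        · rintro ⟨⟨_, h2⟩, h3⟩
          exact ⟨h3, h2⟩
        · rintro ⟨h1, h2⟩
          exact ⟨⟨hacc x ((hKc x).2 h1), h2⟩, h1⟩
      have hsetK : (univ : Finset (Pt n)).filter (fun x => c x = κ) = B.K := by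
        ext x
        simp only [mem_filter, mem_univ, true_and, hKc]
      have h0 : B.K ∩ Zs π h none = ∅ := by
        rw [Finset.eq_empty_iff_forall_notMem]
        intro x hx
        rw [mem_inter] at hx
        exact hzero' x hx.2 (hacc x hx.1)
      simp only [hset, hsetK]
      obtain ⟨T, hT⟩ := hcov n hn0 s hs2 B hB
        ((univ : Finset (Fin D)).biUnion (fun j => B.K ∩ Zs π h (some j)))
        (by
          intro x hx
          obtain ⟨j, -, hx2⟩ := Finset.mem_biUnion.1 hx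
          exact (Finset.mem_inter.1 hx2).1)
      have hfool := cover_blk (L := L) hQ B hB T π h hker hbal h0
      rw [← hM] at hT
      rw [← hβ] at hfool
      exact S5_class M B T π h β hβ0 hT hfool
    · have hempty : ∀ j, (F (some j)).filter (fun x => c x = κ) = ∅ := by
        intro j
        rw [Finset.filter_eq_empty_iff]
        intro x hx hcx
        rw [hF] at hx
        simp only [mem_filter, mem_univ, true_and] at hx
        apply hκ
        constructor
        · rw [← hcx, hc]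
          change V1_it P x P.start (((0 : Fin (r + 1)) : ℕ) * s) = _
          rw [Fin.val_zero, zero_mul, V1_it_zero]
        · rw [← hcx]
          exact hfalse x hx.1
      simp only [hempty, card_empty, Nat.cast_zero, Finset.sum_const_zero]
      positivity
  have hfib : ∀ A : Finset (Pt n), (A.card : ℝ) = ∑ κ : Fin (r + 1) → P.State,
      ((A.filter (fun x => c x = κ)).card : ℝ) := by
    intro A
    have := Finset.card_eq_sum_card_fiberwise (f := c) (s := A) (t := univ)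
      (fun x _ => Finset.mem_coe.2 (Finset.mem_univ _))
    rw [this]
    push_cast
    rfl
  have hFs : ∀ j, (univ.filter (fun x => (∃ l, P.Comp x l false) ∧ x ∈ Zs π h (some j))) =
      F (some j) := by
    intro j
    rw [hF]
  rw [hMR]
  simp only [hFs]
  have hcP : (1 : ℝ) ≤ (Fintype.card P.State : ℝ) ^ (r + 1) := by
    apply one_le_pow₀
    have : 0 < Fintype.card P.State := Fintype.card_pos_iff.2 ⟨P.start⟩
    exact_mod_cast this
  have huniv : ∑ κ : Fin (r + 1) → P.State,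
      (((univ : Finset (Pt n)).filter (fun x => c x = κ)).card : ℝ) = 2 ^ n := by
    rw [← hfib univ, Finset.card_univ, Fintype.card_fun, Fintype.card_bool, Fintype.card_fin]
    push_cast
    rfl
  have hsum : ∑ j, ((F (some j)).card : ℝ) ≤ M * (2 ^ n * β) +
      (Fintype.card P.State : ℝ) ^ (r + 1) * (2 ^ n * (1 / 2 ^ (n / N0))) := by
    calc ∑ j, ((F (some j)).card : ℝ)
        = ∑ κ : Fin (r + 1) → P.State,
            ∑ j, (((F (some j)).filter (fun x => c x = κ)).card : ℝ) := by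
          rw [Finset.sum_comm]
          apply Finset.sum_congr rfl
          intro j _
          rw [hfib (F (some j))]
      _ ≤ ∑ κ : Fin (r + 1) → P.State,
            (M * (((univ : Finset (Pt n)).filter (fun x => c x = κ)).card * β) +
              2 ^ n * (1 / 2 ^ (n / N0))) := Finset.sum_le_sum (fun κ _ => key κ)
      _ = M * (2 ^ n * β) +
            (Fintype.card P.State : ℝ) ^ (r + 1) * (2 ^ n * (1 / 2 ^ (n / N0))) := by
          rw [Finset.sum_add_distrib, ← Finset.mul_sum, ← Finset.sum_mul, huniv, Finset.sum_const,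
            Finset.card_univ, nsmul_eq_mul, Fintype.card_fun, Fintype.card_fin]
          push_cast
          ring
  refine hsum.trans ?_
  have he := hexp n hn
  rw [← hM] at he
  have hD : (1 : ℝ) ≤ (D : ℝ) + 1 := by
    have : (0 : ℝ) ≤ D := Nat.cast_nonneg D
    linarith
  have hx1 : (M : ℝ) * (2 ^ n * β) = M * 2 ^ n * 2 ^ L / 2 ^ D +
      (D + 1) * 2 ^ n * (M / 2 ^ (n / (16384 * Q))) := by
    rw [hβ]
    ring
  have hx2 : ((D : ℝ) + 1) * 2 ^ n * (M / 2 ^ (n / (16384 * Q))) ≤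
      (Fintype.card P.State : ℝ) ^ (r + 1) *
        ((D + 1) * 2 ^ n * (M / 2 ^ (n / (16384 * Q)))) :=
    le_mul_of_one_le_left (by positivity) hcP
  have hx3 : (Fintype.card P.State : ℝ) ^ (r + 1) * (2 ^ n * (1 / 2 ^ (n / N0))) ≤
      (Fintype.card P.State : ℝ) ^ (r + 1) * ((D + 1) * 2 ^ n * (1 / 2 ^ (n / N0))) := by
    apply mul_le_mul_of_nonneg_left _ (by positivity)
    have h1 : (2 : ℝ) ^ n * (1 / 2 ^ (n / N0)) ≤ (D + 1) * (2 ^ n * (1 / 2 ^ (n / N0))) :=
      le_mul_of_one_le_left (by positivity) hD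
    linarith
  have hx4 : (Fintype.card P.State : ℝ) ^ (r + 1) *
      ((D + 1) * 2 ^ n * (M / 2 ^ (n / (16384 * Q)) + 1 / 2 ^ (n / N0))) ≤
      (Fintype.card P.State : ℝ) ^ (r + 1) * ((D + 1) * 2 ^ n * (1 / 2 ^ (n / N))) := by
    apply mul_le_mul_of_nonneg_left _ (by positivity)
    exact mul_le_mul_of_nonneg_left he (by positivity)
  have hx5 : ((D : ℝ) + 1) * 2 ^ n * (1 / 2 ^ (n / N)) = (D + 1) * 2 ^ n / 2 ^ (n / N) := by ring
  rw [hx5] at hx4
  rw [hx1]
  have hx6 : (Fintype.card P.State : ℝ) ^ (r + 1) *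
      ((D + 1) * 2 ^ n * (M / 2 ^ (n / (16384 * Q)) + 1 / 2 ^ (n / N0))) =
      (Fintype.card P.State : ℝ) ^ (r + 1) *
        ((D + 1) * 2 ^ n * (M / 2 ^ (n / (16384 * Q)))) +
      (Fintype.card P.State : ℝ) ^ (r + 1) * ((D + 1) * 2 ^ n * (1 / 2 ^ (n / N0))) := by ring
  rw [hx6] at hx4
  linarith

open Classical in
/-- S5: deterministic programs which accept no zero -/
theorem det_cover (k : ℕ) (hk : 1 ≤ k) : ∃ Q r N : ℕ, 1 ≤ Q ∧ 1 ≤ r ∧ 1 ≤ N ∧ ∀ n ≥ N,
    ∀ {G D L : ℕ}, ∀ (π : Fin D → Fin n → Fin G) (h : Fin D → Fin n → Fin n → Bool),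
    (∀ A B' : Finset (Fin n), Disjoint A B' → n ≤ Q * A.card → n ≤ Q * B'.card →
      ∀ s : Finset (Fin D), ∀ j ∈ s, Bal (π j) A B' →
        (ker (coef π h s) A B').card * 2 ^ (min A.card B'.card / 2048) ≤ 2 ^ B'.card) →
    (∀ A B' : Finset (Fin n), n ≤ Q * A.card → n ≤ Q * B'.card →
      Nat.card {j // ¬ Bal (π j) A B'} ≤ L) →
    ∀ P : BP (Fin n) Bool,
      (∀ x, ∃ (l : List (Fin n)) (b : Bool), l.length ≤ k * n ∧ P.Comp x l b ∧ ∀ v, v ∈ l) →
      (∀ x ∈ Zs π h none, ¬ ∃ l, P.Comp x l true) →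
      ∑ j, ((univ.filter (fun x => (∃ l, P.Comp x l true) ∧ x ∈ Zs π h (some j))).card : ℝ) ≤
        8 * ((k : ℝ) + 1) ^ 2 * 2 ^ n * 2 ^ L / 2 ^ D +
        (Fintype.card P.State : ℝ) ^ (r + 1) * ((D + 1) * 2 ^ n / 2 ^ (n / N)) :=
  det_cover_of k cover_blk

end Pool.Agent.H554R2.Rnd
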