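import Pool.Agent.H554R2.Rnd.Clock
import Pool.Agent.H554R2.Rnd.Seq
import Pool.Agent.H554R2.Zpp.Prog

/-!
# A program is stopped after `k n` queries, and all variables are read
-/

set_option autoImplicit false

open Finset

namespace Pool.Agent.H554R2.Rnd

open Pool.Agent.H554R2.Sem Pool.Agent.H554R2.Coin Pool.Agent.H554R2.Lin

theorem PadH_node {n : ℕ} (P : BP (Fin n) Bool) (t : ℕ) (s : P.State) (i : Fin (t + 1)) :
    (R3_prog P t).node (s, i) = (match P.node s with
    | Sum.inr b => Sum.inr b
    | Sum.inl (v, nxt) => if h : (i : ℕ) < t then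
        Sum.inl (v, fun c => (nxt c, (⟨i + 1, by omega⟩ : Fin (t + 1)))) else Sum.inr false :
      (Fin n × (Bool → P.State × Fin (t + 1))) ⊕ Bool) := rfl

theorem PadH_walk {n : ℕ} (P : BP (Fin n) Bool) (t : ℕ) (x : Pt n) :
    ∀ (l : List (Fin n)) (s : P.State) (i : Fin (t + 1)) (w : P.State × Fin (t + 1)),
      (R3_prog P t).Walk x (s, i) l w → P.Walk x s l w.1 := by
  intro l
  induction l with
  | nil =>
    intro s i w h
    have h' : (s, i) = w := h
    subst h'
    rfl
  | cons v l ih =>
    intro s i w h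
    obtain ⟨nxt', h1, h2⟩ := h
    rw [PadH_node] at h1
    rcases hs : P.node s with ⟨v', nxt⟩ | b
    · rw [hs] at h1
      by_cases hi : (i : ℕ) < t
      · simp only [dif_pos hi] at h1
        have h5 := Sum.inl.inj h1
        have h3 := congrArg Prod.fst h5
        have h4 := congrArg Prod.snd h5
        simp only at h3 h4
        subst h3
        refine ⟨nxt, hs, ?_⟩
        rw [← h4] at h2
        exact ih _ _ _ h2
      · simp only [dif_neg hi] at h1
        cases h1
    · rw [hs] at h1
      cases h1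

theorem PadH_true {n : ℕ} (P : BP (Fin n) Bool) (t : ℕ) (w : P.State × Fin (t + 1))
    (h : (R3_prog P t).node w = Sum.inr true) : P.node w.1 = Sum.inr true := by
  obtain ⟨s, i⟩ := w
  rw [PadH_node] at h
  show P.node s = _
  rcases hs : P.node s with ⟨v', nxt⟩ | b
  · rw [hs] at h
    by_cases hi : (i : ℕ) < t
    · simp only [dif_pos hi] at h
      cases h
    · simp only [dif_neg hi] at h
      cases h
  · rw [hs] at h
    have h' : b = true := Sum.inr.inj h
    rw [h']

theorem pad {n : ℕ} (k : ℕ) (P : BP (Fin n) Bool) :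
    ∃ U : BP (Fin n) Bool,
      Fintype.card U.State ≤ 16 * (Fintype.card P.State * (k * n + 2) + n + 3) ∧
      (∀ x, ∃ (l : List (Fin n)) (b : Bool), l.length ≤ (k + 1) * n ∧ U.Comp x l b ∧
        ∀ v, v ∈ l) ∧
      (∀ x l b, P.Comp x l b → l.length ≤ k * n → ∃ l', U.Comp x l' b) ∧
      ∀ x, (∃ l, U.Comp x l true) → ∃ l, P.Comp x l true := by
  obtain ⟨V, hV1, hV2⟩ := read_all n
  obtain ⟨U, hU1, hU2⟩ := seq_program (m := 2)
    (M := Fintype.card P.State * (k * n + 2) + n + 2)
    (Fin.cons (R3_prog P (k * n)) (fun _ => V)) (by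
      intro i
      refine Fin.cases ?_ (fun j => ?_) i
      · rw [Fin.cons_zero]
        have h : Fintype.card (R3_prog P (k * n)).State = Fintype.card P.State * (k * n + 1) := by
          show Fintype.card (P.State × Fin (k * n + 1)) = _
          rw [Fintype.card_prod, Fintype.card_fin]
        rw [h]
        nlinarith
      · rw [Fin.cons_succ, hV1]
        omega) (fun b => b 0)
  have key : ∀ (x : Pt n) (l : List (Fin n)) (b : Bool), (R3_prog P (k * n)).Comp x l b →
      U.Comp x (l ++ List.finRange n) b := by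
    intro x l b h
    have h1 := hU2 x (Fin.cons l (fun _ => List.finRange n)) (Fin.cons b (fun _ => false)) (by
      intro i
      refine Fin.cases ?_ (fun j => ?_) i
      · simpa only [Fin.cons_zero] using h
      · simpa only [Fin.cons_succ] using hV2 x)
    have h2 : (List.ofFn (Fin.cons l (fun _ => List.finRange n) : Fin 2 → List (Fin n))).flatten =
        l ++ List.finRange n := by
      simp [List.ofFn_succ, List.ofFn_zero]
    rw [h2] at h1
    exact h1
  refine ⟨U, ?_, ?_, ?_, ?_⟩
  · refine hU1.trans (le_of_eq ?_)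
    ring
  · intro x
    obtain ⟨l, b, v, hl, hw, hb⟩ := R3_total P (k * n) x (k * n) 0 (by omega) P.start
    refine ⟨l ++ List.finRange n, b, ?_, key x l b ⟨v, hw, hb⟩, fun v => ?_⟩
    · rw [List.length_append, List.length_finRange]
      linarith
    · exact List.mem_append_right _ (List.mem_finRange v)
  · rintro x l b ⟨v, hw, hb⟩ hl
    have h := R3_walk P (k * n) x l 0 (by omega) _ _ hw
    exact ⟨_, key x l b ⟨_, h, R3_node_inr hb⟩⟩
  · rintro x ⟨l, hl⟩
    obtain ⟨l1, b, v, hl1, hw, hb⟩ := R3_total P (k * n) x (k * n) 0 (by omega) P.start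
    have h1 := key x l1 b ⟨v, hw, hb⟩
    obtain ⟨h2, h3⟩ := Pool.Agent.H554R2.Zpp.comp_uniq U x hl h1
    subst h3
    exact ⟨l1, v.1, PadH_walk P (k * n) x l1 _ _ _ hw, PadH_true P (k * n) v hb⟩

end Pool.Agent.H554R2.Rnd
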