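import Pool.Agent.H554R2.Rnd.Final
import Pool.Agent.H554R2.Rnd.DetCover
import Pool.Agent.H554R2.Rnd.PadH
import Pool.Agent.H554R2.Rnd.Halves

/-!
# Nondeterminism against one-sided error with small success probability, in time `k n`
-/

set_option autoImplicit false

open Finset

namespace Pool.Agent.H554R2.Rnd

open Pool.Agent.H554R2.Sem Pool.Agent.H554R2.Coin Pool.Agent.H554R2.Lin

theorem cov_final (k : ℕ) : ∃ C : ℕ, 0 < C ∧ ∀ d : ℕ, 1 ≤ d → ∃ D : ℕ, 0 < D ∧ ∀ n ≥ D,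
    ∃ q : Fin (C * d) → Pt n → Bool,
      (∀ j, ∃ (U : BP (Fin n) Bool) (l : List (Fin n)), Fintype.card U.State ≤ D * n ∧ l.Nodup ∧
        ∀ x : Pt n, U.Comp x l (q j x)) ∧
      ∀ (Ω : Type) [Fintype Ω] [Nonempty Ω] (P : Ω → BP (Fin n) Bool),
        (∀ ω, Fintype.card (P ω).State < 2 ^ (n / D)) →
        (∀ ω x, (∃ l, (P ω).Comp x l true) → ∃ j, q j x = true) →
        ∃ x, (∃ j, q j x = true) ∧
          d * Nat.card {ω // ∃ l, (P ω).Comp x l true ∧ l.length ≤ k * n} < Nat.card Ω := by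
  classical
  obtain ⟨K, hK⟩ : ∃ K : ℕ, K = k + 1 := ⟨_, rfl⟩
  have hK1 : 1 ≤ K := by omega
  obtain ⟨Q, r, N, hQ, hr, hN, hdet⟩ := det_cover K hK1
  obtain ⟨L, W0, hW0, hgroups⟩ := exists_groups (Q + 2) (by omega)
  obtain ⟨C, hC⟩ : ∃ C : ℕ, C = 16 * (K + 1) ^ 2 * 2 ^ L := ⟨_, rfl⟩
  refine ⟨C, by rw [hC]; positivity, fun d hd => ?_⟩
  obtain ⟨m, hm⟩ : ∃ m : ℕ, m = C * d := ⟨_, rfl⟩
  have hm1 : 1 ≤ m := by
    rw [hm, hC]; exact Nat.one_le_iff_ne_zero.2 (by positivity)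
  obtain ⟨W1, hcoefs⟩ := exists_coefs (Q + 2) m (by omega)
  obtain ⟨W, hW⟩ : ∃ W : ℕ, W = W0 + W1 := ⟨_, rfl⟩
  obtain ⟨N1, hN1⟩ := hgroups W (by omega) m
  obtain ⟨N2, hN2⟩ := hcoefs W (by omega)
  obtain ⟨c1, hc1⟩ : ∃ c1 : ℕ, c1 = 2 * N * (r + 1) := ⟨_, rfl⟩
  have hc1' : 1 ≤ c1 := by rw [hc1]; exact Nat.one_le_iff_ne_zero.2 (by positivity)
  obtain ⟨N3, hN3⟩ := exp_large (2 * c1) (by omega) (16 * (k + 4))
  obtain ⟨N4, hN4⟩ := exp_large (2 * N) (by omega) (2 ^ (m + 2) * (m + 1))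
  obtain ⟨N5, hN5⟩ := exp_large 8192 (by norm_num) (2 ^ (m + 2))
  obtain ⟨D, hD⟩ : ∃ D : ℕ, D = m + (16 * m * 9 ^ W + 4) + N + N1 + N2 + N3 + N4 + N5 + 2 * c1 +
    (Q + 2) * 4 := ⟨_, rfl⟩
  refine ⟨D, by omega, fun n hn => ?_⟩
  have hn0 : 1 ≤ n := by omega
  obtain ⟨π, hπ1, hπ2, hπ3⟩ := hN1 n (by omega)
  obtain ⟨h, hh⟩ := hN2 n (by omega) π
  rw [← hm]
  refine ⟨fun j => qr (π j) (h j), fun j => ?_, ?_⟩
  · obtain ⟨U, l, hU1, hl, hU2⟩ := qr_program (π j) (h j)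
    refine ⟨U, l, hU1.trans ?_, hl, hU2⟩
    calc 4 * ∑ g, 2 ^ (univ.filter (fun v => π j v = g)).card + 4 ≤
        4 * (4 * m * 9 ^ W * n) + 4 := by
          have := Nat.mul_le_mul_left 4 (hπ1 j)
          omega
      _ ≤ (16 * m * 9 ^ W + 4) * n := by nlinarith
      _ ≤ D * n := Nat.mul_le_mul_right _ (by omega)
  intro Ω _ _ P hP hsound
  by_contra hcon
  push Not at hcon
  have hker : ∀ A B' : Finset (Fin n), Disjoint A B' → n ≤ (Q + 2) * A.card →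
      n ≤ (Q + 2) * B'.card → ∀ s : Finset (Fin m), ∀ j ∈ s, Bal (π j) A B' →
        (ker (coef π h s) A B').card * 2 ^ (min A.card B'.card / 2048) ≤ 2 ^ B'.card := hh
  have hQ2 : ∀ a : ℕ, n ≤ Q * a → n ≤ (Q + 2) * a := fun a ha => ha.trans (by nlinarith)
  obtain ⟨hA0c, hB0c, hdisj⟩ := halves n hn0
  set A0 : Finset (Fin n) := univ.filter (fun v : Fin n => 2 * v.val < n) with hA0
  set B0 : Finset (Fin n) := univ.filter (fun v : Fin n => ¬ 2 * v.val < n) with hB0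
  have hnA : n ≤ (Q + 2) * A0.card := hA0c.trans (Nat.mul_le_mul_right _ (by omega))
  have hnB : n ≤ (Q + 2) * B0.card := by
    have hn12 : 12 ≤ n := by omega
    have hB1 : 1 ≤ B0.card := by omega
    nlinarith
  have hsmall : ∀ s : Finset (Fin m), s.Nonempty →
      (|∑ x : Pt n, chi π h s x| : ℤ) ≤ (2 : ℝ) ^ n / 2 ^ (n / 8192) := by
    intro s hs
    obtain ⟨j, hj⟩ := hs
    exact all_small π h s (hker A0 B0 hdisj hnA hnB s j hj (hπ3 j))
  have hall := fun j => invert_all π h ((2 : ℝ) ^ n / 2 ^ (n / 8192)) (by positivity) hsmall j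
  have h2n : (0 : ℝ) < 2 ^ n := by positivity
  have h2m : (0 : ℝ) < 2 ^ m := by positivity
  have hρ : (2 : ℝ) ^ m * ((2 : ℝ) ^ n / 2 ^ (n / 8192)) ≤ 2 ^ n / 4 := by
    have h1 : 2 ^ (m + 2) * (n + 1) ≤ 2 ^ (n / 8192) := hN5 n (by omega)
    have h2 : 2 ^ (m + 2) ≤ 2 ^ (n / 8192) := (Nat.le_mul_of_pos_right _ (by omega)).trans h1
    have h3 : (2 : ℝ) ^ m * 4 ≤ 2 ^ (n / 8192) := by
      have : ((2 ^ (m + 2) : ℕ) : ℝ) ≤ ((2 ^ (n / 8192) : ℕ) : ℝ) := by exact_mod_cast h2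
      push_cast at this
      rw [pow_add] at this
      linarith
    have h4 : (0 : ℝ) < 2 ^ (n / 8192) := by positivity
    rw [mul_div_assoc', div_le_div_iff₀ h4 (by norm_num)]
    nlinarith
  have hZlo : ∀ j, 3 / 4 * (2 : ℝ) ^ n ≤ 2 ^ m * (Zs π h j).card := by
    intro j
    have h1 := (abs_le.1 (hall j)).1
    linarith
  -- the clocked programs
  choose U hU1 hU2 hU3 hU4 using fun ω => pad k (P ω)
  -- double counting
  have hzero : ∀ x ∈ Zs π h none, ¬ ∃ j, qr (π j) (h j) x = true := by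
    intro x hx
    have := Zs_val hx
    simpa using this
  have hone : ∀ j, ∀ x ∈ Zs π h (some j), ∃ j, qr (π j) (h j) x = true := by
    intro j x hx
    have := Zs_val hx
    simpa using this
  have hcount : ∀ j, (Fintype.card Ω : ℝ) * (Zs π h (some j)).card ≤
      d * ∑ ω : Ω, ((univ.filter (fun x => (∃ l, (U ω).Comp x l true) ∧
        x ∈ Zs π h (some j))).card : ℝ) := by
    intro j
    have h1 : ∀ x ∈ Zs π h (some j), (Fintype.card Ω : ℝ) ≤
        d * ((univ.filter (fun ω : Ω => ∃ l, (U ω).Comp x l true)).card : ℝ) := by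
      intro x hx
      have h2 := hcon x (hone j x hx)
      rw [Nat.card_eq_fintype_card, Nat.card_eq_fintype_card, Fintype.card_subtype] at h2
      have h3 : (univ.filter (fun ω : Ω => ∃ l, (P ω).Comp x l true ∧ l.length ≤ k * n)).card ≤
          (univ.filter (fun ω : Ω => ∃ l, (U ω).Comp x l true)).card := by
        apply card_le_card
        intro ω hω
        rw [mem_filter] at hω ⊢
        obtain ⟨l, hl1, hl2⟩ := hω.2
        exact ⟨hω.1, hU3 ω x l true hl1 hl2⟩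
      have h4 := h2.trans (Nat.mul_le_mul_left d h3)
      exact_mod_cast h4
    calc (Fintype.card Ω : ℝ) * (Zs π h (some j)).card =
        ∑ x ∈ Zs π h (some j), (Fintype.card Ω : ℝ) := by
          rw [Finset.sum_const, nsmul_eq_mul, mul_comm]
      _ ≤ ∑ x ∈ Zs π h (some j),
          d * ((univ.filter (fun ω : Ω => ∃ l, (U ω).Comp x l true)).card : ℝ) :=
          Finset.sum_le_sum h1
      _ = d * ∑ ω : Ω, ((univ.filter (fun x => (∃ l, (U ω).Comp x l true) ∧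
        x ∈ Zs π h (some j))).card : ℝ) := by
          rw [← Finset.mul_sum]
          congr 1
          have e1 : ∀ x, ((univ.filter (fun ω : Ω => ∃ l, (U ω).Comp x l true)).card : ℝ) =
              ∑ ω : Ω, if (∃ l, (U ω).Comp x l true) then (1 : ℝ) else 0 := by
            intro x
            rw [Finset.sum_boole]
          have e2 : ∀ ω, ((univ.filter (fun x => (∃ l, (U ω).Comp x l true) ∧
              x ∈ Zs π h (some j))).card : ℝ) =
              ∑ x ∈ Zs π h (some j), if (∃ l, (U ω).Comp x l true) then (1 : ℝ) else 0 := by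
            intro ω
            rw [Finset.sum_boole]
            congr 2
            ext x
            simp [and_comm]
          rw [Finset.sum_congr rfl (fun x _ => e1 x), Finset.sum_congr rfl (fun ω _ => e2 ω),
            Finset.sum_comm]
  have hΩ : (0 : ℝ) < Fintype.card Ω := by exact_mod_cast Fintype.card_pos
  have hdR : (1 : ℝ) ≤ d := by exact_mod_cast hd
  -- one program covers much
  obtain ⟨ω, hω⟩ : ∃ ω : Ω, (m : ℝ) * (3 / 4 * 2 ^ n / 2 ^ m) ≤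
      d * ∑ j, ((univ.filter (fun x => (∃ l, (U ω).Comp x l true) ∧
        x ∈ Zs π h (some j))).card : ℝ) := by
    by_contra hneg
    push Not at hneg
    have h1 : ∑ ω : Ω, d * ∑ j, ((univ.filter (fun x => (∃ l, (U ω).Comp x l true) ∧
        x ∈ Zs π h (some j))).card : ℝ) < ∑ _ω : Ω, (m : ℝ) * (3 / 4 * 2 ^ n / 2 ^ m) :=
      Finset.sum_lt_sum_of_nonempty univ_nonempty fun ω _ => hneg ω
    have h2 : ∑ j : Fin m, (Fintype.card Ω : ℝ) * (Zs π h (some j)).card ≤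
        ∑ ω : Ω, d * ∑ j, ((univ.filter (fun x => (∃ l, (U ω).Comp x l true) ∧
        x ∈ Zs π h (some j))).card : ℝ) := by
      refine (Finset.sum_le_sum fun j _ => hcount j).trans (le_of_eq ?_)
      rw [← Finset.mul_sum, ← Finset.mul_sum, Finset.sum_comm]
    have h3 : ∑ _j : Fin m, (Fintype.card Ω : ℝ) * (3 / 4 * 2 ^ n / 2 ^ m) ≤
        ∑ j : Fin m, (Fintype.card Ω : ℝ) * (Zs π h (some j)).card := by
      refine Finset.sum_le_sum fun j _ => mul_le_mul_of_nonneg_left ?_ hΩ.le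
      rw [div_le_iff₀ h2m]
      have := hZlo (some j)
      linarith
    rw [Finset.sum_const, card_univ, Fintype.card_fin, nsmul_eq_mul] at h3
    rw [Finset.sum_const, card_univ, nsmul_eq_mul] at h1
    have h4 : (m : ℝ) * ((Fintype.card Ω : ℝ) * (3 / 4 * 2 ^ n / 2 ^ m)) =
      (Fintype.card Ω : ℝ) * (m * (3 / 4 * 2 ^ n / 2 ^ m)) := by ring
    linarith
  have hd' := hdet n (by omega) (G := n / W) (D := m) (L := L) π h
    (fun A B' h1 h2 h3 => hker A B' h1 (hQ2 _ h2) (hQ2 _ h3))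
    (fun A B' h2 h3 => hπ2 A B' (hQ2 _ h2) (hQ2 _ h3)) (U ω) (fun x => by
      rw [hK]; exact hU2 ω x) (fun x hx hacc => hzero x hx (hsound ω x (hU4 ω x hacc)))
  -- the size of the program
  have hsize : Fintype.card (U ω).State ≤ 2 ^ (n / D) * 2 ^ (n / (2 * c1)) := by
    refine (hU1 ω).trans ?_
    have h1 : 16 * (k + 4) * (n + 1) ≤ 2 ^ (n / (2 * c1)) := hN3 n (by omega)
    have h2 : 1 ≤ 2 ^ (n / D) := Nat.one_le_two_pow
    have h0 : Fintype.card (P ω).State ≤ 2 ^ (n / D) := (hP ω).le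
    calc 16 * (Fintype.card (P ω).State * (k * n + 2) + n + 3) ≤
        16 * (2 ^ (n / D) * ((k + 4) * (n + 1))) := by
          apply Nat.mul_le_mul_left
          have h3 : (k + 4) * (n + 1) = k * n + k + 4 * n + 4 := by ring
          rw [h3]
          have h4 : 2 ^ (n / D) * (k * n + k + 4 * n + 4) =
            2 ^ (n / D) * (k * n + 2) + 2 ^ (n / D) * (k + 4 * n + 2) := by ring
          rw [h4]
          have h5 : k + 4 * n + 2 ≤ 2 ^ (n / D) * (k + 4 * n + 2) := Nat.le_mul_of_pos_left _ h2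
          have h6 := Nat.mul_le_mul_right (k * n + 2) h0
          omega
      _ = 2 ^ (n / D) * (16 * (k + 4) * (n + 1)) := by ring
      _ ≤ 2 ^ (n / D) * 2 ^ (n / (2 * c1)) := Nat.mul_le_mul_left _ h1
  have hsize2 : Fintype.card (U ω).State ^ (r + 1) ≤ 2 ^ (n / (2 * N)) := by
    refine (Nat.pow_le_pow_left hsize _).trans ?_
    rw [← pow_add, ← pow_mul]
    apply Nat.pow_le_pow_right (by norm_num)
    rw [Nat.le_div_iff_mul_le (by omega)]
    have h1 : 2 * c1 * (n / (2 * c1)) ≤ n := Nat.mul_div_le n (2 * c1)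
    have h2 : 2 * c1 * (n / D) ≤ n :=
      (Nat.mul_le_mul_right _ (by omega)).trans (Nat.mul_div_le n D)
    have h3 : 2 * ((n / D + n / (2 * c1)) * (r + 1) * (2 * N)) =
        2 * c1 * (n / D) + 2 * c1 * (n / (2 * c1)) := by rw [hc1]; ring
    omega
  have herr : ((Fintype.card (U ω).State : ℝ) ^ (r + 1)) * ((m + 1) * (2 : ℝ) ^ n / 2 ^ (n / N)) ≤
      2 ^ n / 2 ^ m := by
    have h1 : 2 ^ (m + 2) * (m + 1) * (n + 1) ≤ 2 ^ (n / (2 * N)) := hN4 n (by omega)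
    have h2 : 2 ^ m * (m + 1) ≤ 2 ^ (n / (2 * N)) := by
      calc 2 ^ m * (m + 1) ≤ 2 ^ (m + 2) * (m + 1) :=
            Nat.mul_le_mul_right _ (Nat.pow_le_pow_right (by norm_num) (by omega))
        _ ≤ 2 ^ (m + 2) * (m + 1) * (n + 1) := Nat.le_mul_of_pos_right _ (by omega)
        _ ≤ _ := h1
    have h3 : 2 ^ (n / (2 * N)) * 2 ^ (n / (2 * N)) ≤ 2 ^ (n / N) := by
      rw [← pow_add]
      apply Nat.pow_le_pow_right (by norm_num)
      rw [Nat.le_div_iff_mul_le (by omega)]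
      have := Nat.mul_div_le n (2 * N)
      nlinarith
    have h4 : Fintype.card (U ω).State ^ (r + 1) * (2 ^ m * (m + 1)) ≤ 2 ^ (n / N) :=
      (Nat.mul_le_mul hsize2 h2).trans h3
    have h5 : ((Fintype.card (U ω).State : ℝ) ^ (r + 1)) * ((2 : ℝ) ^ m * (m + 1)) ≤
        2 ^ (n / N) := by
      exact_mod_cast h4
    have h7 : (0 : ℝ) < 2 ^ (n / N) := by positivity
    rw [mul_div_assoc', div_le_div_iff₀ h7 h2m]
    calc (Fintype.card (U ω).State : ℝ) ^ (r + 1) * ((m + 1) * 2 ^ n) * 2 ^ m =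
        2 ^ n * (((Fintype.card (U ω).State : ℝ) ^ (r + 1)) * ((2 : ℝ) ^ m * (m + 1))) := by ring
      _ ≤ 2 ^ n * 2 ^ (n / N) := mul_le_mul_of_nonneg_left h5 h2n.le
  -- contradiction
  have hmR : (m : ℝ) = 16 * ((K : ℝ) + 1) ^ 2 * 2 ^ L * d := by
    rw [hm, hC]; push_cast; ring
  set X : ℝ := 2 ^ n / 2 ^ m with hX
  have hX0 : 0 < X := by positivity
  have e1 : 8 * ((K : ℝ) + 1) ^ 2 * 2 ^ n * 2 ^ L / 2 ^ m = 8 * ((K : ℝ) + 1) ^ 2 * 2 ^ L * X := by
    rw [hX]; ring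
  have e2 : (m : ℝ) * (3 / 4 * 2 ^ n / 2 ^ m) = 12 * ((K : ℝ) + 1) ^ 2 * 2 ^ L * d * X := by
    rw [hmR, hX]; ring
  have e3 : ∑ j, ((univ.filter (fun x => (∃ l, (U ω).Comp x l true) ∧
        x ∈ Zs π h (some j))).card : ℝ) ≤ 8 * ((K : ℝ) + 1) ^ 2 * 2 ^ L * X + X := by
    rw [e1] at hd'
    linarith
  rw [e2] at hω
  have e4 : (d : ℝ) * ∑ j, ((univ.filter (fun x => (∃ l, (U ω).Comp x l true) ∧
        x ∈ Zs π h (some j))).card : ℝ) ≤ d * (8 * ((K : ℝ) + 1) ^ 2 * 2 ^ L * X + X) :=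
    mul_le_mul_of_nonneg_left e3 (by positivity)
  have e5 : (1 : ℝ) ≤ ((K : ℝ) + 1) ^ 2 * 2 ^ L := by
    have h1 : (1 : ℝ) ≤ ((K : ℝ) + 1) ^ 2 := by
      have : (0 : ℝ) ≤ K := Nat.cast_nonneg _
      nlinarith
    have h2 : (1 : ℝ) ≤ 2 ^ L := one_le_pow₀ (by norm_num)
    nlinarith
  set Y : ℝ := ((K : ℝ) + 1) ^ 2 * 2 ^ L with hY
  have e6 : 12 * Y * d * X ≤ d * (8 * Y * X + X) := by
    have : 12 * ((K : ℝ) + 1) ^ 2 * 2 ^ L * d * X = 12 * Y * d * X := by rw [hY]; ring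
    have h2 : (8 : ℝ) * ((K : ℝ) + 1) ^ 2 * 2 ^ L * X = 8 * Y * X := by rw [hY]; ring
    rw [h2] at e4
    linarith
  have e7 : 0 < (d : ℝ) * X := by positivity
  have e8 : 12 * Y * (d * X) ≤ (8 * Y + 1) * (d * X) := by linarith
  have e9 : 12 * Y ≤ 8 * Y + 1 := le_of_mul_le_mul_right e8 e7
  linarith

end Pool.Agent.H554R2.Rnd
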